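import Pool.Agent.H63.CMP.Defs

/-!
# CMP-5 Bdd (properties of bounded objects of the derived category; `Good` is triangulated)

(a) `bounded_induction`: let `P` be a triangulated property of objects of `DerivedCategory C`,
closed under isomorphisms, and `Q : C → Prop` with `P (single M)` for all `M` with `Q M`. If `X` is
bounded and `Q` holds for all cohomology objects `(homologyFunctor C j).obj X` then `P X`.
(`Q` closed under isomorphism.) Proof: induction on `b - a` for `X.IsGE a`, `X.IsLE b`.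
If `b < a` then `X` is zero. If `a = b` then `X ≅ (singleFunctor C a).obj Y`
(`exists_iso_singleFunctor_obj_of_isGE_of_isLE`), `Y ≅ H^a(X)`, and
`(singleFunctor C a).obj Y ≅ ((singleFunctor C 0).obj Y)⟦-a⟧`. If `a < b`: the truncation triangle
`τ^{≤ b-1} X ⟶ X ⟶ τ^{≥ b} X ⟶` (`TStructure.t.exists_triangle` or
`TStructure.t.triangleLEGE`...), both outer terms are bounded and their cohomology objects are zero
or isomorphic to those of `X` (long exact homology sequence,
Mathlib/Algebra/Homology/DerivedCategory/HomologySequence.lean; the zero object: need `Q 0`, so we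
assume it).
(b) `good_triangulated`: `Good L W` is closed under isomorphisms, contains zero, is stable under
shifts, and closed under extensions: let `N₁ ⟶ N₂ ⟶ N₃ ⟶ N₁⟦1⟧` be distinguished with `N₁, N₃` good.
It is enough to treat the shift `0` (shift the triangle by `i`; all `N⟦i⟧` are again good).
H1 for `N₂`: `f : S M ⟶ N₂`, `F f = 0`: the image `f₃ : S M ⟶ N₃` has `F f₃ = 0`, so after passing to a
dense subobject `f₃ = 0` and `f = f₁ ≫ (N₁ ⟶ N₂)`; `F f₁ ≫ F(N₁ ⟶ N₂) = 0` so `F f₁` comes from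
`g : F (S M) ⟶ F (N₃⟦-1⟧)` through the connecting map `N₃⟦-1⟧ ⟶ N₁`; by (H2) for `N₃⟦-1⟧`, on a dense
subobject `g = F h`, and `f₁ - h ≫ (N₃⟦-1⟧ ⟶ N₁)` is killed by `F`, so on a dense subobject
`f₁ = h ≫ (..)` by (H1) for `N₁`, hence `f = 0` there.
H2 for `N₂`: `g : F (S M) ⟶ F N₂`; its image `g₃ : F (S M) ⟶ F N₃` is `F f₃` on a dense subobject `M'`
(H2 for `N₃`); `f₃ ≫ (N₃ ⟶ N₁⟦1⟧)` is killed by `F`, so zero on a smaller dense subobject (H1 for
`N₁⟦1⟧`), and `f₃ = f₂ ≫ (N₂ ⟶ N₃)`; `g - F f₂` comes from `g₁ : F (S M') ⟶ F N₁`, which is `F f₁` on a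
dense subobject (H2 for `N₁`); `f := f₂ + f₁ ≫ (N₁ ⟶ N₂)`.
Dense maps compose (`Dense.comp`).
-/

namespace Pool.Agent.H63.CMP

open CategoryTheory Limits Pretriangulated DerivedCategory

universe w v u w' v' u'

theorem bounded_induction {C : Type u} [Category.{v} C] [Abelian C] [HasDerivedCategory.{w} C]
    (P : ObjectProperty (DerivedCategory C)) [P.IsTriangulated] [P.IsClosedUnderIsomorphisms]
    (Q : C → Prop) (hQiso : ∀ {A B : C}, (A ≅ B) → Q A → Q B) (hQ0 : ∀ A : C, IsZero A → Q A)
    (h : ∀ M : C, Q M → P ((singleFunctor C 0).obj M)) (X : DerivedCategory C)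
    (hX : TStructure.t.bounded X)
    (hH : ∀ j : ℤ, Q ((homologyFunctor C j).obj X)) : P X := by
  have base : ∀ (a : ℤ) (Y : DerivedCategory C), Y.IsGE a → Y.IsLE a →
      (∀ j : ℤ, Q ((homologyFunctor C j).obj Y)) → P Y := by
    intro a Y hge hle hq
    obtain ⟨M, ⟨e⟩⟩ := exists_iso_singleFunctor_obj_of_isGE_of_isLE Y a
    have e1 : (homologyFunctor C a).obj Y ≅ M :=
      (homologyFunctor C a).mapIso e ≪≫ (singleFunctorCompHomologyFunctorIso C a).app M
    have hM : Q M := hQiso e1 (hq a)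
    have e2 : ((singleFunctor C 0).obj M)⟦(-a : ℤ)⟧ ≅ (singleFunctor C a).obj M :=
      ((singleFunctors C).shiftIso (-a) a 0 (by simp)).app M
    exact P.prop_of_iso (e2 ≪≫ e.symm) (P.le_shift (-a) _ (h M hM))
  have main : ∀ (n : ℕ) (a : ℤ) (Y : DerivedCategory C), Y.IsGE a → Y.IsLE (a + n) →
      (∀ j : ℤ, Q ((homologyFunctor C j).obj Y)) → P Y := by
    intro n
    induction n with
    | zero =>
      intro a Y hge hle hq
      exact base a Y hge (by simpa using hle) hq
    | succ n ih =>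
      intro a Y hge hle hq
      obtain ⟨A, B, hA, hB, f, g, k, hT⟩ := TStructure.t.exists_triangle Y (a + n) (a + n + 1) rfl
      have hA' : A.IsLE (a + n) := ⟨hA⟩
      have hB' : B.IsGE (a + n + 1) := ⟨hB⟩
      have hle' : Y.IsLE (a + n + 1) := by
        have : a + ((n + 1 : ℕ) : ℤ) = a + n + 1 := by push_cast; ring
        rwa [this] at hle
      -- homology of `A`
      have hBz : ∀ i : ℤ, i ≤ a + n → IsZero ((homologyFunctor C i).obj B) := fun i hi =>
        B.isZero_of_isGE (a + n + 1) i (by omega)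
      have hAz : ∀ i : ℤ, a + n < i → IsZero ((homologyFunctor C i).obj A) := fun i hi =>
        A.isZero_of_isLE (a + n) i hi
      have hAiso : ∀ i : ℤ, i ≤ a + n → IsIso ((homologyFunctor C i).map f) := by
        intro i hi
        have h1 : Mono ((homologyFunctor C i).map f) := by
          refine (HomologySequence.mono_homologyMap_mor₁_iff _ hT (i - 1) i (by omega)).2 ?_
          exact (hBz (i - 1) (by omega)).eq_of_src _ _
        have h2 : Epi ((homologyFunctor C i).map f) := by
          refine (HomologySequence.epi_homologyMap_mor₁_iff _ hT i).2 ?_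
          exact (hBz i hi).eq_of_tgt _ _
        exact isIso_of_mono_of_epi _
      have hBiso : ∀ i : ℤ, a + n < i → IsIso ((homologyFunctor C i).map g) := by
        intro i hi
        have h1 : Mono ((homologyFunctor C i).map g) := by
          refine (HomologySequence.mono_homologyMap_mor₂_iff _ hT i).2 ?_
          exact (hAz i hi).eq_of_src _ _
        have h2 : Epi ((homologyFunctor C i).map g) := by
          refine (HomologySequence.epi_homologyMap_mor₂_iff _ hT i (i + 1) rfl).2 ?_
          exact (hAz (i + 1) (by omega)).eq_of_tgt _ _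
        exact isIso_of_mono_of_epi _
      have hAge : A.IsGE a := by
        rw [isGE_iff]
        intro i hi
        have := hAiso i (by omega)
        exact (Y.isZero_of_isGE a i hi).of_iso (asIso ((homologyFunctor C i).map f))
      have hBle : B.IsLE (a + n + 1) := by
        rw [isLE_iff]
        intro i hi
        have := hBiso i (by omega)
        exact (Y.isZero_of_isLE (a + n + 1) i hi).of_iso
          (asIso ((homologyFunctor C i).map g)).symm
      have hAq : ∀ j : ℤ, Q ((homologyFunctor C j).obj A) := by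
        intro j
        rcases le_or_gt j (a + n) with hj | hj
        · have := hAiso j hj
          exact hQiso (asIso ((homologyFunctor C j).map f)).symm (hq j)
        · exact hQ0 _ (hAz j hj)
      have hBq : ∀ j : ℤ, Q ((homologyFunctor C j).obj B) := by
        intro j
        rcases le_or_gt j (a + n) with hj | hj
        · exact hQ0 _ (hBz j hj)
        · have := hBiso j hj
          exact hQiso (asIso ((homologyFunctor C j).map g)) (hq j)
      have hPA : P A := ih a A hAge hA' hAq
      have hPB : P B := base (a + n + 1) B hB' hBle hBq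
      exact P.ext_of_isTriangulatedClosed₂ _ hT hPA hPB
  obtain ⟨⟨a, ha⟩, ⟨b, hb⟩⟩ := hX
  have h1 : X.IsLE (a + ((b - a).toNat : ℤ)) := by
    have := hb
    exact TStructure.t.isLE_of_le X b (a + ((b - a).toNat : ℤ)) (by omega)
  exact main (b - a).toNat a X ha h1 hH

variable {U : Type u} [Category.{v} U] [Abelian U] [HasDerivedCategory.{w} U]
  {V : Type u'} [Category.{v'} V] [Abelian V] [HasDerivedCategory.{w'} V]
  (L : U ⥤ V) [L.Additive] [PreservesFiniteLimits L] [PreservesFiniteColimits L]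
  (W : ObjectProperty U) [W.IsSerreClass]

theorem Bdd_dense_id (M : U) : Dense W (𝟙 M) :=
  ⟨inferInstance, W.isoModSerre.id_mem M⟩

variable {L W}

theorem Bdd_H1_iso {N N' : DerivedCategory U} (e : N ≅ N') (h : H1 L W N) : H1 L W N' := by
  intro M f hf
  obtain ⟨M', s, hs, h1⟩ := h M (f ≫ e.inv) (by rw [Functor.map_comp, hf, zero_comp])
  refine ⟨M', s, hs, ?_⟩
  rw [← cancel_mono e.inv, Category.assoc, h1, zero_comp]

theorem Bdd_H2_iso {N N' : DerivedCategory U} (e : N ≅ N') (h : H2 L W N) : H2 L W N' := by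
  intro M g
  obtain ⟨M', s, f, hs, h1⟩ := h M (g ≫ L.mapDerivedCategory.map e.inv)
  refine ⟨M', s, f ≫ e.hom, hs, ?_⟩
  rw [Functor.map_comp, h1, Category.assoc, Category.assoc, ← Functor.map_comp, e.inv_hom_id,
    CategoryTheory.Functor.map_id, Category.comp_id]

variable (L W)

instance good_iso : (Good L W).IsClosedUnderIsomorphisms where
  of_iso := by
    intro N N' e h i
    exact ⟨Bdd_H1_iso ((shiftFunctor _ i).mapIso e) (h i).1,
      Bdd_H2_iso ((shiftFunctor _ i).mapIso e) (h i).2⟩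

variable {L W}

theorem Bdd_good_shift {N : DerivedCategory U} (h : Good L W N) (a : ℤ) : Good L W (N⟦a⟧) := by
  intro i
  have e : N⟦a + i⟧ ≅ (N⟦a⟧)⟦i⟧ := (shiftFunctorAdd (DerivedCategory U) a i).app N
  exact ⟨Bdd_H1_iso e (h (a + i)).1, Bdd_H2_iso e (h (a + i)).2⟩

theorem Bdd_good_zero {N : DerivedCategory U} (h : Good L W N) : H1 L W N ∧ H2 L W N := by
  have e : N⟦(0 : ℤ)⟧ ≅ N := (shiftFunctorZero (DerivedCategory U) ℤ).app N
  exact ⟨Bdd_H1_iso e (h 0).1, Bdd_H2_iso e (h 0).2⟩

theorem Bdd_step (T : Triangle (DerivedCategory U)) (hT : T ∈ distTriang _)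
    (h₁ : Good L W T.obj₁) (h₃ : Good L W T.obj₃) : H1 L W T.obj₂ ∧ H2 L W T.obj₂ := by
  have h11 := (Bdd_good_zero h₁).1
  have h12 := (Bdd_good_zero h₁).2
  have h31 := (Bdd_good_zero h₃).1
  have h32 := (Bdd_good_zero h₃).2
  have hT' : T.invRotate ∈ distTriang _ := inv_rot_of_distTriang _ hT
  have hFT : L.mapDerivedCategory.mapTriangle.obj T ∈ distTriang _ :=
    L.mapDerivedCategory.map_distinguished T hT
  have hFT' : L.mapDerivedCategory.mapTriangle.obj T.invRotate ∈ distTriang _ :=
    L.mapDerivedCategory.map_distinguished _ hT'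
  have h3m : H2 L W (T.obj₃⟦(-1 : ℤ)⟧) := (Bdd_good_zero (Bdd_good_shift h₃ (-1))).2
  obtain ⟨m, hm⟩ : ∃ m : T.obj₃⟦(-1 : ℤ)⟧ ⟶ T.obj₁, m = T.invRotate.mor₁ := ⟨_, rfl⟩
  have e6 : m ≫ T.mor₁ = 0 := by
    rw [hm]
    exact comp_distTriang_mor_zero₁₂ _ hT'
  have h1p : H1 L W (T.obj₁⟦(1 : ℤ)⟧) := (Bdd_good_zero (Bdd_good_shift h₁ 1)).1
  constructor
  · intro M f hf
    obtain ⟨M1, s1, hs1, e1⟩ := h31 M (f ≫ T.mor₂) (by rw [Functor.map_comp, hf, zero_comp])
    rw [← Category.assoc] at e1
    obtain ⟨f1, hf1⟩ := Triangle.coyoneda_exact₂ T hT _ e1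
    have e2 : L.mapDerivedCategory.map f1 ≫ L.mapDerivedCategory.map T.mor₁ = 0 := by
      rw [← Functor.map_comp, ← hf1, Functor.map_comp, hf, comp_zero]
    obtain ⟨g, hg⟩ : ∃ g : L.mapDerivedCategory.obj ((singleFunctor U 0).obj M1) ⟶
        L.mapDerivedCategory.obj (T.obj₃⟦(-1 : ℤ)⟧),
        L.mapDerivedCategory.map f1 = g ≫ L.mapDerivedCategory.map m := by
      rw [hm]
      exact Triangle.coyoneda_exact₂ _ hFT' (L.mapDerivedCategory.map f1) e2
    obtain ⟨M2, s2, k, hs2, e3⟩ := h3m M1 g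
    have e4 : L.mapDerivedCategory.map
        ((singleFunctor U 0).map s2 ≫ f1 - k ≫ m) = 0 := by
      rw [Functor.map_sub, Functor.map_comp, Functor.map_comp, e3, hg, Category.assoc]
      exact sub_self _
    obtain ⟨M3, s3, hs3, e5⟩ := h11 M2 _ e4
    refine ⟨M3, s3 ≫ s2 ≫ s1, hs3.comp (hs2.comp hs1), ?_⟩
    rw [Preadditive.comp_sub, sub_eq_zero] at e5
    rw [Functor.map_comp, Functor.map_comp, Category.assoc, Category.assoc, hf1,
      ← Category.assoc ((singleFunctor U 0).map s2), ← Category.assoc, e5, Category.assoc,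
      Category.assoc, e6, comp_zero, comp_zero]
  · intro M g
    obtain ⟨M1, s1, f3, hs1, e1⟩ := h32 M (g ≫ L.mapDerivedCategory.map T.mor₂)
    have e2 : L.mapDerivedCategory.map (f3 ≫ T.mor₃) = 0 := by
      rw [Functor.map_comp, e1, Category.assoc, Category.assoc, ← Functor.map_comp,
        comp_distTriang_mor_zero₂₃ _ hT, Functor.map_zero, comp_zero, comp_zero]
    obtain ⟨M2, s2, hs2, e3⟩ := h1p M1 _ e2
    rw [← Category.assoc] at e3
    obtain ⟨f2, hf2⟩ := Triangle.coyoneda_exact₃ T hT _ e3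
    have e4 : (L.mapDerivedCategory.map ((singleFunctor U 0).map (s2 ≫ s1)) ≫ g -
        L.mapDerivedCategory.map f2) ≫ L.mapDerivedCategory.map T.mor₂ = 0 := by
      rw [Preadditive.sub_comp, ← Functor.map_comp _ f2, ← hf2, Functor.map_comp _ _ f3, e1,
        Functor.map_comp, Functor.map_comp]
      simp only [Category.assoc, sub_self]
    obtain ⟨g1, hg1⟩ : ∃ g1 : L.mapDerivedCategory.obj ((singleFunctor U 0).obj M2) ⟶
        L.mapDerivedCategory.obj T.obj₁,
        L.mapDerivedCategory.map ((singleFunctor U 0).map (s2 ≫ s1)) ≫ g -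
        L.mapDerivedCategory.map f2 = g1 ≫ L.mapDerivedCategory.map T.mor₁ :=
      Triangle.coyoneda_exact₂ _ hFT _ e4
    obtain ⟨M3, s3, f1, hs3, e5⟩ := h12 M2 g1
    refine ⟨M3, s3 ≫ s2 ≫ s1, (singleFunctor U 0).map s3 ≫ f2 + f1 ≫ T.mor₁,
      hs3.comp (hs2.comp hs1), ?_⟩
    rw [Functor.map_add, Functor.map_comp, Functor.map_comp, e5, Category.assoc, ← hg1,
      Preadditive.comp_sub, add_sub_cancel, Functor.map_comp _ s3,
      Functor.map_comp _ ((singleFunctor U 0).map s3), Category.assoc]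

variable (L W)

instance good_triangulated : (Good L W).IsTriangulated where
  exists_zero := by
    obtain ⟨Z, hZ⟩ := HasZeroObject.zero (C := DerivedCategory U)
    refine ⟨Z, hZ, ?_⟩
    intro i
    have hz : IsZero (Z⟦i⟧) := (shiftFunctor _ i).map_isZero hZ
    constructor
    · intro M f _
      exact ⟨M, 𝟙 M, Bdd_dense_id W M, hz.eq_of_tgt _ _⟩
    · intro M g
      exact ⟨M, 𝟙 M, 0, Bdd_dense_id W M,
        (L.mapDerivedCategory.map_isZero hz).eq_of_tgt _ _⟩
  isStableUnderShiftBy a := { le_shift := fun N hN => Bdd_good_shift hN a }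
  ext₂' T hT h₁ h₃ := by
    refine (Good L W).le_isoClosure _ ?_
    intro i
    have hTi := Triangle.shift_distinguished T hT i
    exact Bdd_step _ hTi (Bdd_good_shift h₁ i) (Bdd_good_shift h₃ i)

end Pool.Agent.H63.CMP
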