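import Pool.Agent.H63.CMP.Defs

/-!
# CMP-1 Efface (effaceability of `Hom(Y, Z[i])`, `i ≥ 1`, in the derived category)

Proof. `(singleFunctor C 0).obj Y ≅ Q.obj (single Y)` (`singleFunctorIsoCompQ`), and
`((singleFunctor C 0).obj Z)⟦i⟧ ≅ Q.obj K` with `K := (CochainComplex.singleFunctor C (-i)).obj Z` or
the shifted single complex, a complex concentrated in degree `-i`. By
`DerivedCategory.right_fac_of_isStrictlyLE` the map is `inv (Q.map s) ≫ Q.map h` with
`s : X ⟶ single Y` a quasi-isomorphism (`IsIso (Q.map s)`), `X` strictly `≤ 0`, `h : X ⟶ K`.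
Let `Y' := X.X 0`, `q : Y' ⟶ Y` the degree `0` component of `s`. The inclusion
`single (X.X 0) ⟶ X` of the part of degree `0` is a chain map `j` because `X.X 1` is zero
(`HomologicalComplex.mkHomFromSingle`). `j ≫ s = single.map q`, and `j ≫ h = 0` because `K.X 0 = 0`
(`i ≠ 0`). So `Q.map (single.map q) ≫ (the map) = Q.map j ≫ Q.map h = 0`.
`q` is an epimorphism: `s` is a quasi-isomorphism, so it induces an isomorphism on `H^0`, and
`X.X 0 ⟶ H^0(X)` is an epimorphism (`X` strictly `≤ 0`: all of `X.X 0` are cycles),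
`H^0(single Y) = Y`. (Alternatively: apply `homologyFunctor C 0` to `j`; its cokernel vanishes.)
-/

namespace Pool.Agent.H63.CMP

open CategoryTheory Limits Pretriangulated DerivedCategory

universe w v u

theorem efface_aux {C : Type u} [Category.{v} C] [Abelian C] (Y : C) (X : CochainComplex C ℤ)
    [X.IsStrictlyLE 0] (s : X ⟶ (HomologicalComplex.single C (ComplexShape.up ℤ) 0).obj Y)
    (hqi : QuasiIso s) (K : CochainComplex C ℤ) (hK : IsZero (K.X 0)) (h : X ⟶ K) :
    ∃ (Y' : C) (q : Y' ⟶ Y)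
      (j : (HomologicalComplex.single C (ComplexShape.up ℤ) 0).obj Y' ⟶ X), Epi q ∧
      j ≫ s = (HomologicalComplex.single C (ComplexShape.up ℤ) 0).map q ∧ j ≫ h = 0 := by
  have hX1 : IsZero (X.X 1) := X.isZero_of_isStrictlyLE 0 1 (by norm_num)
  have hd : X.d 0 1 = 0 := hX1.eq_of_tgt _ _
  have hn : (ComplexShape.up ℤ).next 0 = 1 := CochainComplex.next ℤ 0
  have hp : (ComplexShape.up ℤ).prev 0 = -1 := by
    simp
  let S := (HomologicalComplex.single C (ComplexShape.up ℤ) 0).obj Y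
  have i1 : IsIso (X.homologyι 0) := X.isIso_homologyι 0 1 hn hd
  have i2 : IsIso (S.homologyι 0) := S.isIso_homologyι 0 1 hn rfl
  have i3 : IsIso (S.pOpcycles 0) := S.isIso_pOpcycles (-1) 0 hp rfl
  have i4 : IsIso (HomologicalComplex.homologyMap s 0) := inferInstance
  have e1 : HomologicalComplex.homologyMap s 0 ≫ S.homologyι 0 =
      X.homologyι 0 ≫ HomologicalComplex.opcyclesMap s 0 :=
    HomologicalComplex.homologyι_naturality s 0
  have i5 : IsIso (HomologicalComplex.opcyclesMap s 0) := by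
    have e2 : HomologicalComplex.opcyclesMap s 0 =
        inv (X.homologyι 0) ≫ HomologicalComplex.homologyMap s 0 ≫ S.homologyι 0 := by
      rw [e1, IsIso.inv_hom_id_assoc]
    rw [e2]
    infer_instance
  have e3 : s.f 0 ≫ S.pOpcycles 0 = X.pOpcycles 0 ≫ HomologicalComplex.opcyclesMap s 0 :=
    (HomologicalComplex.p_opcyclesMap s 0).symm
  have hepi : Epi (s.f 0) := by
    have e4 : s.f 0 = (X.pOpcycles 0 ≫ HomologicalComplex.opcyclesMap s 0) ≫
        inv (S.pOpcycles 0) := by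
      rw [← e3, Category.assoc, IsIso.hom_inv_id, Category.comp_id]
    rw [e4]
    infer_instance
  let q : X.X 0 ⟶ Y := s.f 0 ≫ (HomologicalComplex.singleObjXSelf (ComplexShape.up ℤ) 0 Y).hom
  let j : (HomologicalComplex.single C (ComplexShape.up ℤ) 0).obj (X.X 0) ⟶ X :=
    HomologicalComplex.mkHomFromSingle (𝟙 _) (fun k hk => by
      have hk' : k = 1 := by
        rw [ComplexShape.up_Rel] at hk
        omega
      subst hk'
      rw [hd, comp_zero])
  refine ⟨X.X 0, q, j, ?_, ?_, ?_⟩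
  · exact epi_comp _ _
  · apply HomologicalComplex.from_single_hom_ext
    rw [HomologicalComplex.comp_f, HomologicalComplex.single_map_f_self]
    simp only [j, q, HomologicalComplex.mkHomFromSingle_f]
    simp
  · apply HomologicalComplex.from_single_hom_ext
    exact hK.eq_of_tgt _ _

theorem efface {C : Type u} [Category.{v} C] [Abelian C] [HasDerivedCategory.{w} C] (Y Z : C)
    (i : ℤ) (hi : 0 < i)
    (g : (singleFunctor C 0).obj Y ⟶ ((singleFunctor C 0).obj Z)⟦i⟧) :
    ∃ (Y' : C) (q : Y' ⟶ Y), Epi q ∧ (singleFunctor C 0).map q ≫ g = 0 := by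
  obtain ⟨K, hK1, hK2, ⟨e⟩⟩ : ∃ (K : CochainComplex C ℤ) (_ : K.IsStrictlyGE (-i))
      (_ : K.IsStrictlyLE (-i)), Nonempty (((singleFunctor C 0).obj Z)⟦i⟧ ≅ Q.obj K) := by
    have h1 : (((singleFunctor C 0).obj Z)⟦i⟧).IsGE (-i) :=
      TStructure.t.isGE_shift _ 0 i (-i) (by omega)
    have h2 : (((singleFunctor C 0).obj Z)⟦i⟧).IsLE (-i) :=
      TStructure.t.isLE_shift _ 0 i (-i) (by omega)
    exact exists_iso_Q_obj_of_isGE_of_isLE _ (-i) (-i)
  have hK : IsZero (K.X 0) := K.isZero_of_isStrictlyLE (-i) 0 (by omega)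
  let g' : Q.obj ((CochainComplex.singleFunctor C 0).obj Y) ⟶ Q.obj K :=
    (singleFunctorIsoCompQ C 0).inv.app Y ≫ g ≫ e.hom
  obtain ⟨X, hX, s, hs, h, hg⟩ := right_fac_of_isStrictlyLE g' 0
  have hq : QuasiIso s := (isIso_Q_map_iff_quasiIso C s).1 hs
  have aux : ∃ (Y' : C) (q : Y' ⟶ Y) (j : (CochainComplex.singleFunctor C 0).obj Y' ⟶ X),
      Epi q ∧ j ≫ s = (CochainComplex.singleFunctor C 0).map q ∧ j ≫ h = 0 :=
    efface_aux Y X s hq K hK h
  obtain ⟨Y', q, j, hq, hj1, hj2⟩ := aux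
  refine ⟨Y', q, hq, ?_⟩
  have n1 : (singleFunctor C 0).map q = (singleFunctorIsoCompQ C 0).hom.app Y' ≫
      Q.map ((CochainComplex.singleFunctor C 0).map q) ≫
      (singleFunctorIsoCompQ C 0).inv.app Y := by
    have := (singleFunctorIsoCompQ C 0).hom.naturality_assoc q
      ((singleFunctorIsoCompQ C 0).inv.app Y)
    rw [Iso.hom_inv_id_app, Category.comp_id] at this
    exact this
  have n2 : (singleFunctorIsoCompQ C 0).inv.app Y ≫ g ≫ e.hom = inv (Q.map s) ≫ Q.map h := hg
  have n3 : Q.map ((CochainComplex.singleFunctor C 0).map q) ≫ inv (Q.map s) ≫ Q.map h = 0 := by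
    rw [← hj1, Q.map_comp, Category.assoc, IsIso.hom_inv_id_assoc, ← Q.map_comp, hj2,
      Functor.map_zero]
  have n4 : (singleFunctor C 0).map q ≫ g ≫ e.hom = 0 := by
    rw [n1]
    have n5 : ((singleFunctorIsoCompQ C 0).hom.app Y' ≫
      Q.map ((CochainComplex.singleFunctor C 0).map q) ≫
      (singleFunctorIsoCompQ C 0).inv.app Y) ≫ g ≫ e.hom =
      (singleFunctorIsoCompQ C 0).hom.app Y' ≫
      (Q.map ((CochainComplex.singleFunctor C 0).map q) ≫
      ((singleFunctorIsoCompQ C 0).inv.app Y ≫ g ≫ e.hom)) := by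
      simp only [Category.assoc]
    rw [n5, n2, n3]
    exact comp_zero
  rw [← cancel_mono e.hom, zero_comp, Category.assoc]
  exact n4

end Pool.Agent.H63.CMP
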