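import Pool.Agent.H63.CMP.Ser
import Pool.Agent.H63.CMP.Efface

/-!
# CMP-4 Step (induction step for (H1), (H2): from `N[i-1]` to `N[i]`, `i ≥ 1`)

`F = L.mapDerivedCategory` is triangulated, `F (single M) ≅ single (L M)`
(`L.mapDerivedCategorySingleFunctor 0`). Write `S = singleFunctor U 0`, `P = (S N)⟦i⟧`.
(0) Shifted forms. From (H2) for `(S N)⟦i-1⟧` we get (H2'): for `K : U` and
`g' : F ((S K)⟦1⟧) ⟶ F P` there are dense `s : K' ⟶ K`, `f' : (S K')⟦1⟧ ⟶ P` with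
`F.map f' = F.map ((S.map s)⟦1⟧') ≫ g'`: `P ≅ ((S N)⟦i-1⟧)⟦1⟧` (`shiftFunctorAdd'`), `F` commutes
with the shift, and `shiftFunctor _ 1` is full and faithful. Similarly (H1'): for
`d : (S K)⟦1⟧ ⟶ P` with `F.map d = 0` there is a dense `s : K' ⟶ K` with `(S.map s)⟦1⟧' ≫ d = 0`.
By `refine_tail` we may always take `s = (τ.i k).app K`.
(H2) Let `g : F (S M) ⟶ F P`. `F (S M) ≅ S (L M)`, `F P ≅ (S (L N))⟦i⟧`; by `efface` in `V` there is an
epimorphism `q : Y ⟶ L M` that kills `g`; by `lift_epi` there is `q₀ : Y₁ ⟶ M` in `U` with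
`L.map q₀` epi and `F.map (S.map q₀) ≫ g = 0`. Let `M₁` be the image of `q₀`, `m : M₁ ⟶ M` (dense,
`dense_image`), `0 ⟶ K ⟶(a) Y₁ ⟶(b) M₁ ⟶ 0` exact, `δ = hS.singleδ : S M₁ ⟶ (S K)⟦1⟧`, triangle
`S K ⟶ S Y₁ ⟶ S M₁ ⟶(δ)` (`singleTriangle_distinguished`); `F.map (S.map m) ≫ g` is killed by
`F.map (S.map b)` so (triangulated functor; `Triangle.yoneda_exact₃` for the image triangle) it is
`F.map δ ≫ g'` with `g' : F ((S K)⟦1⟧) ⟶ F P`. By (H2') there are `k`,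
`f' : (S ((t k) K))⟦1⟧ ⟶ P` with `F f' = F ((S (i k K))⟦1⟧) ≫ g'`. `t k` is exact:
`0 ⟶ t k K ⟶ t k Y₁ ⟶ t k M₁ ⟶ 0` with the map of short exact sequences `i k`, so
`S (i k M₁) ≫ δ = δ' ≫ (S (i k K))⟦1⟧` (`ShortExact.singleTriangle.map`, `comm₃`). Put
`f := δ' ≫ f' : S (t k M₁) ⟶ P`, `s := (i k).app M₁ ≫ m`, dense. Then
`F f = F δ' ≫ F ((S (i k K))⟦1⟧) ≫ g' = F (S (i k M₁)) ≫ F δ ≫ g' = F (S s) ≫ g`.
(H1) Let `f : S M ⟶ P`, `F f = 0`. By `efface` in `U` there is an epimorphism `b : Y ⟶ M` with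
`S b ≫ f = 0`; `0 ⟶ K ⟶(a) Y ⟶(b) M ⟶ 0`; `f = δ ≫ f'`, `f' : (S K)⟦1⟧ ⟶ P`. `F δ ≫ F f' = 0`, so
`F f' = F ((S a)⟦1⟧) ≫ g'` with `g' : F ((S Y)⟦1⟧) ⟶ F P` (exactness of
`F (S M) ⟶ F ((S K)⟦1⟧) ⟶ F ((S Y)⟦1⟧)`; the third map of the rotated triangle is `-(S a)⟦1⟧'`).
By (H2') for `Y`: `k` and `h : (S (t k Y))⟦1⟧ ⟶ P` with `F h = F ((S (i k Y))⟦1⟧) ≫ g'`. Put
`d := (S (i k K))⟦1⟧ ≫ f' - (S (t k a))⟦1⟧ ≫ h : (S (t k K))⟦1⟧ ⟶ P`. Then `F d = 0` (naturality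
`i k K ≫ a = t k a ≫ i k Y`). By (H1') there is `k'` with `(S (i k' (t k K)))⟦1⟧ ≫ d = 0`. Let
`s : t k' (t k M) ⟶ M` be `i k' (t k M) ≫ i k M`, dense; `δ'' : S (t k' t k M) ⟶ (S (t k' t k K))⟦1⟧`
the connecting map of the exact sequence `t k' t k` of `K, Y, M`. Then
`S s ≫ f = S s ≫ δ ≫ f' = δ'' ≫ (S (i k' ≫ i k))⟦1⟧ ≫ f' = δ'' ≫ (S (i k' (t k K)))⟦1⟧ ≫ (S (t k a))⟦1⟧ ≫ h
 = δ'' ≫ (S (t k' t k a))⟦1⟧ ≫ (S (i k' (t k Y)))⟦1⟧ ≫ h = 0`, as `δ'' ≫ (S (t k' t k a))⟦1⟧ = 0`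
(consecutive maps of a distinguished triangle).
-/

namespace Pool.Agent.H63.CMP

open CategoryTheory Limits Pretriangulated DerivedCategory

universe w v u w' v' u'

section general

variable {A B : Type*} [Category* A] [Category* B] [HasZeroObject A] [HasShift A ℤ]
  [Preadditive A] [∀ n : ℤ, (shiftFunctor A n).Additive] [Pretriangulated A]
  [HasZeroObject B] [HasShift B ℤ] [Preadditive B] [∀ n : ℤ, (shiftFunctor B n).Additive]
  [Pretriangulated B] (G : A ⥤ B) [G.CommShift ℤ] [G.IsTriangulated]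

private lemma map_yoneda₃ {X₁ X₂ X₃ : A} {p : X₁ ⟶ X₂} {q : X₂ ⟶ X₃} {r : X₃ ⟶ X₁⟦(1 : ℤ)⟧}
    (hT : Triangle.mk p q r ∈ distTriang A) {X : B} (f : G.obj X₃ ⟶ X)
    (hf : G.map q ≫ f = 0) : ∃ g : G.obj (X₁⟦(1 : ℤ)⟧) ⟶ X, f = G.map r ≫ g := by
  obtain ⟨g, hg⟩ := Triangle.yoneda_exact₃ _ (G.map_distinguished _ hT) f hf
  exact ⟨(G.commShiftIso (1 : ℤ)).hom.app X₁ ≫ g, hg.trans (Category.assoc _ _ _)⟩

private lemma map_yoneda₁ {X₁ X₂ X₃ : A} {p : X₁ ⟶ X₂} {q : X₂ ⟶ X₃} {r : X₃ ⟶ X₁⟦(1 : ℤ)⟧}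
    (hT : Triangle.mk p q r ∈ distTriang A) {X : B}
    (f : G.obj (X₁⟦(1 : ℤ)⟧) ⟶ X) (hf : G.map r ≫ f = 0) :
    ∃ g : G.obj (X₂⟦(1 : ℤ)⟧) ⟶ X, f = G.map (p⟦(1 : ℤ)⟧') ≫ g := by
  have hT' : Triangle.mk q r (-(p⟦(1 : ℤ)⟧')) ∈ distTriang A := rot_of_distTriang _ hT
  obtain ⟨g, hg⟩ := map_yoneda₃ G hT' f hf
  refine ⟨-g, ?_⟩
  rw [hg, Functor.map_neg, Preadditive.neg_comp, Preadditive.comp_neg]

end general

section single

variable {U : Type u} [Category.{v} U] [Abelian U] [HasDerivedCategory.{w} U]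

/-- the connecting map -/
private noncomputable def dl {K Y M : U} {a : K ⟶ Y} {b : Y ⟶ M} {w : a ≫ b = 0}
    (hS : (ShortComplex.mk a b w).ShortExact) :
    (singleFunctor U 0).obj M ⟶ ((singleFunctor U 0).obj K)⟦(1 : ℤ)⟧ := hS.singleδ

private lemma dl_dist {K Y M : U} {a : K ⟶ Y} {b : Y ⟶ M} {w : a ≫ b = 0}
    (hS : (ShortComplex.mk a b w).ShortExact) :
    Triangle.mk ((singleFunctor U 0).map a) ((singleFunctor U 0).map b) (dl hS) ∈
      distTriang (DerivedCategory U) := hS.singleTriangle_distinguished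

private lemma dl_nat {K Y M K' Y' M' : U} {a : K ⟶ Y} {b : Y ⟶ M} {w : a ≫ b = 0}
    (hS : (ShortComplex.mk a b w).ShortExact) {a' : K' ⟶ Y'} {b' : Y' ⟶ M'} {w' : a' ≫ b' = 0}
    (hS' : (ShortComplex.mk a' b' w').ShortExact) (p : K ⟶ K') (q : Y ⟶ Y') (r : M ⟶ M')
    (h1 : a ≫ q = p ≫ a') (h2 : b ≫ r = q ≫ b') :
    dl hS ≫ ((singleFunctor U 0).map p)⟦(1 : ℤ)⟧' = (singleFunctor U 0).map r ≫ dl hS' :=
  (ShortComplex.ShortExact.singleTriangle.map hS hS'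
    { τ₁ := p, τ₂ := q, τ₃ := r, comm₁₂ := h1.symm, comm₂₃ := h2.symm }).comm₃

private lemma dl_comp {K Y M : U} {a : K ⟶ Y} {b : Y ⟶ M} {w : a ≫ b = 0}
    (hS : (ShortComplex.mk a b w).ShortExact) :
    dl hS ≫ ((singleFunctor U 0).map a)⟦(1 : ℤ)⟧' = 0 :=
  comp_distTriang_mor_zero₃₁ _ hS.singleTriangle_distinguished

omit [HasDerivedCategory U] in
private lemma ses_map (T : U ⥤ U) [T.Additive] [PreservesFiniteLimits T]
    [PreservesFiniteColimits T] {K Y M : U} {a : K ⟶ Y} {b : Y ⟶ M} {w : a ≫ b = 0}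
    (hS : (ShortComplex.mk a b w).ShortExact) :
    (ShortComplex.mk (T.map a) (T.map b) (by rw [← T.map_comp, w, T.map_zero])).ShortExact :=
  hS.map_of_exact T

omit [HasDerivedCategory U] in
private lemma single_ses {Y M : U} (b : Y ⟶ M) [Epi b] :
    (ShortComplex.mk (kernel.ι b) b (kernel.condition b)).ShortExact :=
  { exact := ShortComplex.exact_kernel b }

/-- the inclusion of the tail -/
private def ii {W : ObjectProperty U} [W.IsSerreClass] (τ : Tails W) (k : ℕ) (M : U) :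
    (τ.t k).obj M ⟶ M := (τ.i k).app M

omit [HasDerivedCategory U] in
private lemma ii_nat {W : ObjectProperty U} [W.IsSerreClass] (τ : Tails W) (k : ℕ) {M N : U}
    (f : M ⟶ N) : (τ.t k).map f ≫ ii τ k N = ii τ k M ≫ f := (τ.i k).naturality f

omit [HasDerivedCategory U] in
private lemma ii_dense {W : ObjectProperty U} [W.IsSerreClass] (τ : Tails W) (k : ℕ) (M : U) :
    Dense W (ii τ k M) := τ.dense k M

end single

variable {U : Type u} [Category.{v} U] [Abelian U] [HasDerivedCategory.{w} U]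
  {V : Type u'} [Category.{v'} V] [Abelian V] [HasDerivedCategory.{w'} V]
  (L : U ⥤ V) [L.Additive] [PreservesFiniteLimits L] [PreservesFiniteColimits L]
  {W : ObjectProperty U} [W.IsSerreClass]

/-- shifted (H2) with a tail -/
private lemma shift_H2 (τ : Tails W) {P Z : DerivedCategory U} (e : P ≅ Z⟦(1 : ℤ)⟧)
    (h2 : H2 L W Z) (K : U)
    (g : L.mapDerivedCategory.obj (((singleFunctor U 0).obj K)⟦(1 : ℤ)⟧) ⟶
      L.mapDerivedCategory.obj P) :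
    ∃ (k : ℕ) (f : ((singleFunctor U 0).obj ((τ.t k).obj K))⟦(1 : ℤ)⟧ ⟶ P),
      L.mapDerivedCategory.map f =
        L.mapDerivedCategory.map (((singleFunctor U 0).map (ii τ k K))⟦(1 : ℤ)⟧') ≫ g := by
  obtain ⟨g₀, hg₀⟩ := (shiftFunctor (DerivedCategory V) (1 : ℤ)).map_surjective
    ((L.mapDerivedCategory.commShiftIso (1 : ℤ)).inv.app ((singleFunctor U 0).obj K) ≫ g ≫
      L.mapDerivedCategory.map e.hom ≫
      (L.mapDerivedCategory.commShiftIso (1 : ℤ)).hom.app Z)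
  obtain ⟨K', s, f₀, hs, hf₀⟩ := h2 K g₀
  obtain ⟨k, u, hu⟩ := refine_tail τ hs
  have hu' : ii τ k K = u ≫ s := hu.symm
  refine ⟨k, ((singleFunctor U 0).map u)⟦(1 : ℤ)⟧' ≫ f₀⟦(1 : ℤ)⟧' ≫ e.inv, ?_⟩
  have h3 : L.mapDerivedCategory.map (f₀⟦(1 : ℤ)⟧') =
      L.mapDerivedCategory.map (((singleFunctor U 0).map s)⟦(1 : ℤ)⟧') ≫ g ≫
      L.mapDerivedCategory.map e.hom := by
    rw [← cancel_mono ((L.mapDerivedCategory.commShiftIso (1 : ℤ)).hom.app Z),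
      Functor.commShiftIso_hom_naturality, hf₀, Functor.map_comp, hg₀]
    simp only [Category.assoc]
    rw [← Functor.commShiftIso_hom_naturality_assoc]
    simp
  rw [Functor.map_comp, Functor.map_comp, h3, hu']
  simp only [Functor.map_comp, Category.assoc]
  rw [← L.mapDerivedCategory.map_comp, e.hom_inv_id, CategoryTheory.Functor.map_id,
    Category.comp_id]

/-- shifted (H1) with a tail -/
private lemma shift_H1 (τ : Tails W) {P Z : DerivedCategory U} (e : P ≅ Z⟦(1 : ℤ)⟧)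
    (h1 : H1 L W Z) (K : U) (d : ((singleFunctor U 0).obj K)⟦(1 : ℤ)⟧ ⟶ P)
    (hd : L.mapDerivedCategory.map d = 0) :
    ∃ k : ℕ, ((singleFunctor U 0).map (ii τ k K))⟦(1 : ℤ)⟧' ≫ d = 0 := by
  obtain ⟨d₀, hd₀⟩ := (shiftFunctor (DerivedCategory U) (1 : ℤ)).map_surjective (d ≫ e.hom)
  have h3 : L.mapDerivedCategory.map d₀ = 0 := by
    apply (shiftFunctor (DerivedCategory V) (1 : ℤ)).map_injective
    rw [Functor.map_zero, ← cancel_epi ((L.mapDerivedCategory.commShiftIso (1 : ℤ)).hom.app _),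
      ← Functor.commShiftIso_hom_naturality, hd₀, Functor.map_comp, hd]
    simp
  obtain ⟨K', s, hs, hs0⟩ := h1 K d₀ h3
  obtain ⟨k, u, hu⟩ := refine_tail τ hs
  have hu' : ii τ k K = u ≫ s := hu.symm
  refine ⟨k, ?_⟩
  rw [← cancel_mono e.hom, Category.assoc, ← hd₀, hu', (singleFunctor U 0).map_comp,
    Functor.map_comp, Category.assoc, ← Functor.map_comp _ _ d₀, hs0]
  simp

variable [L.IsLocalization W.isoModSerre]

theorem step_H2 (τ : Tails W) (N : U) (i : ℤ) (hi : 0 < i)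
    (h1 : H1 L W (((singleFunctor U 0).obj N)⟦i - 1⟧))
    (h2 : H2 L W (((singleFunctor U 0).obj N)⟦i - 1⟧)) :
    H2 L W (((singleFunctor U 0).obj N)⟦i⟧) := by
  intro M g
  let e : ((singleFunctor U 0).obj N)⟦i⟧ ≅ (((singleFunctor U 0).obj N)⟦i - 1⟧)⟦(1 : ℤ)⟧ :=
    (shiftFunctorAdd' (DerivedCategory U) (i - 1) 1 i (by ring)).app ((singleFunctor U 0).obj N)
  -- effaceability in `V`
  let eM (M : U) : L.mapDerivedCategory.obj ((singleFunctor U 0).obj M) ≅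
      (singleFunctor V 0).obj (L.obj M) := (L.mapDerivedCategorySingleFunctor 0).app M
  have eMn {M M' : U} (f : M ⟶ M') : L.mapDerivedCategory.map ((singleFunctor U 0).map f) ≫
      (eM M').hom = (eM M).hom ≫ (singleFunctor V 0).map (L.map f) :=
    (L.mapDerivedCategorySingleFunctor 0).hom.naturality f
  let eP : L.mapDerivedCategory.obj (((singleFunctor U 0).obj N)⟦i⟧) ≅
      ((singleFunctor V 0).obj (L.obj N))⟦i⟧ :=
    (L.mapDerivedCategory.commShiftIso i).app ((singleFunctor U 0).obj N) ≪≫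
      (shiftFunctor _ i).mapIso (eM N)
  obtain ⟨Y, q, hq, hq0⟩ := efface (L.obj M) (L.obj N) i hi ((eM M).inv ≫ g ≫ eP.hom)
  obtain ⟨Y₁, q₀, y, hy, hepi⟩ := lift_epi (W := W) L q
  have hg0 : L.mapDerivedCategory.map ((singleFunctor U 0).map q₀) ≫ g = 0 := by
    have h3 : L.mapDerivedCategory.map ((singleFunctor U 0).map q₀) =
        (eM Y₁).hom ≫ (singleFunctor V 0).map (L.map q₀) ≫ (eM M).inv := by
      rw [← Category.assoc, ← eMn, Category.assoc, Iso.hom_inv_id, Category.comp_id]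
    rw [← cancel_mono eP.hom, h3, hy, Functor.map_comp]
    simp only [Category.assoc, zero_comp]
    rw [hq0]
    simp
  have hm := dense_image (W := W) L q₀ hepi
  obtain ⟨M₁, m, b, hbm, hb, hm⟩ : ∃ (M₁ : U) (m : M₁ ⟶ M) (b : Y₁ ⟶ M₁), b ≫ m = q₀ ∧ Epi b ∧
      Dense W m := ⟨_, Abelian.image.ι q₀, Abelian.factorThruImage q₀, Abelian.image.fac q₀,
        inferInstance, hm⟩
  have hS := single_ses b
  obtain ⟨g', hg'⟩ := map_yoneda₃ L.mapDerivedCategory (dl_dist hS)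
    (L.mapDerivedCategory.map ((singleFunctor U 0).map m) ≫ g) (by
      rw [← Functor.map_comp_assoc, ← Functor.map_comp, hbm, hg0])
  obtain ⟨k, f', hf'⟩ := shift_H2 L τ e h2 (kernel b) g'
  have := τ.additive k
  have := τ.lim k
  have := τ.colim k
  have hSk := ses_map (τ.t k) hS
  have hcomm := dl_nat hSk hS (ii τ k _) (ii τ k _) (ii τ k _) (ii_nat τ k _) (ii_nat τ k _)
  refine ⟨(τ.t k).obj M₁, ii τ k M₁ ≫ m, dl hSk ≫ f', (ii_dense τ k M₁).comp hm, ?_⟩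
  rw [Functor.map_comp, hf', ← Functor.map_comp_assoc, hcomm, Functor.map_comp, Category.assoc,
    ← hg', ← Functor.map_comp_assoc, ← Functor.map_comp]

theorem step_H1 (τ : Tails W) (N : U) (i : ℤ) (hi : 0 < i)
    (h1 : H1 L W (((singleFunctor U 0).obj N)⟦i - 1⟧))
    (h2 : H2 L W (((singleFunctor U 0).obj N)⟦i - 1⟧)) :
    H1 L W (((singleFunctor U 0).obj N)⟦i⟧) := by
  intro M f hf
  let e : ((singleFunctor U 0).obj N)⟦i⟧ ≅ (((singleFunctor U 0).obj N)⟦i - 1⟧)⟦(1 : ℤ)⟧ :=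
    (shiftFunctorAdd' (DerivedCategory U) (i - 1) 1 i (by ring)).app ((singleFunctor U 0).obj N)
  obtain ⟨Y, b, hb, hb0⟩ := efface M N i hi f
  have hS := single_ses b
  obtain ⟨f', hf'⟩ : ∃ f' : ((singleFunctor U 0).obj (kernel b))⟦(1 : ℤ)⟧ ⟶
      ((singleFunctor U 0).obj N)⟦i⟧, f = dl hS ≫ f' :=
    Triangle.yoneda_exact₃ _ (dl_dist hS) f hb0
  obtain ⟨g', hg'⟩ := map_yoneda₁ L.mapDerivedCategory (dl_dist hS)
    (L.mapDerivedCategory.map f') (by rw [← Functor.map_comp, ← hf', hf])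
  obtain ⟨k, h, hh⟩ := shift_H2 L τ e h2 Y g'
  have := τ.additive k
  have := τ.lim k
  have := τ.colim k
  obtain ⟨k', hk'⟩ := shift_H1 L τ e h1 ((τ.t k).obj (kernel b))
    (((singleFunctor U 0).map (ii τ k (kernel b)))⟦(1 : ℤ)⟧' ≫ f' -
      ((singleFunctor U 0).map ((τ.t k).map (kernel.ι b)))⟦(1 : ℤ)⟧' ≫ h) (by
      rw [Functor.map_sub, Functor.map_comp, Functor.map_comp, hg', hh, sub_eq_zero,
        ← Functor.map_comp_assoc, ← Functor.map_comp_assoc, ← Functor.map_comp,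
        ← Functor.map_comp, ← Functor.map_comp, ← Functor.map_comp, ii_nat])
  have := τ.additive k'
  have := τ.lim k'
  have := τ.colim k'
  have hSk := ses_map (τ.t k) hS
  have hSkk := ses_map (τ.t k') hSk
  have hc1 := dl_nat hSk hS (ii τ k _) (ii τ k _) (ii τ k _) (ii_nat τ k _) (ii_nat τ k _)
  have hc2 := dl_nat hSkk hSk (ii τ k' _) (ii τ k' _) (ii τ k' _) (ii_nat τ k' _) (ii_nat τ k' _)
  have hc3 := dl_comp hSkk
  refine ⟨(τ.t k').obj ((τ.t k).obj M), ii τ k' _ ≫ ii τ k M,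
    (ii_dense τ k' _).comp (ii_dense τ k M), ?_⟩
  rw [Preadditive.comp_sub, sub_eq_zero] at hk'
  have hn : ((singleFunctor U 0).map (ii τ k' ((τ.t k).obj (kernel b))))⟦(1 : ℤ)⟧' ≫
      ((singleFunctor U 0).map ((τ.t k).map (kernel.ι b)))⟦(1 : ℤ)⟧' =
      ((singleFunctor U 0).map ((τ.t k').map ((τ.t k).map (kernel.ι b))))⟦(1 : ℤ)⟧' ≫
        ((singleFunctor U 0).map (ii τ k' ((τ.t k).obj Y)))⟦(1 : ℤ)⟧' := by
    rw [← Functor.map_comp, ← Functor.map_comp, ← Functor.map_comp, ← Functor.map_comp, ii_nat]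
  rw [hf', Functor.map_comp, Category.assoc, reassoc_of% hc1.symm, reassoc_of% hc2.symm, hk',
    reassoc_of% hn, reassoc_of% hc3, zero_comp]

end Pool.Agent.H63.CMP
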