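import Pool.Agent.H63.CMP.Base
import Pool.Agent.H63.CMP.Step
import Pool.Agent.H63.CMP.Bdd

/-!
# CMP-6 Final (the comparison theorem)

(a) `good_single`: `Good L W (single N)` for every `N : U`: `base` for `i ≤ 0`, `step_H1`, `step_H2`
for `i ≥ 1` (induction). (b) `good_bounded`: every bounded `N` is good: `bounded_induction` with
`Q = fun _ => True`.
(c) `cmp_module`: `M : U`, `N` bounded, and for all `k`, `i` every map
`single (coker (i k M)) ⟶ N⟦i⟧` is zero. Then `F : Hom(single M, N⟦i⟧) ⟶ Hom(F (single M), F (N⟦i⟧))`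
is bijective for all `i`. Injective: `F f = 0`; by (H1) and `refine_tail` `S (i k M) ≫ f = 0` for some
`k`, so `f` factors through `S M ⟶ S (coker (i k M))` (triangle of
`0 ⟶ t k M ⟶ M ⟶ coker ⟶ 0`), hence zero. Surjective: given `g`, by (H2) and `refine_tail` there are
`k` and `f : S (t k M) ⟶ N⟦i⟧` with `F f = F (S (i k M)) ≫ g`; `f` extends to `f' : S M ⟶ N⟦i⟧`, because
`(S coker)⟦-1⟧ ⟶ S (t k M) ⟶ N⟦i⟧` is zero (it corresponds to a map `S coker ⟶ N⟦i+1⟧`); then
`F (S (i k M)) ≫ (F f' - g) = 0` and `F (S (i k M))` is an isomorphism (`L.map (i k M)` is).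
(d) `cmp`: the property of `M : DerivedCategory U` `for all i, F is bijective on Hom(M, N⟦i⟧)` is
triangulated and closed under isomorphisms (five lemma for the two long exact sequences, maps
`Hom(M, N⟦i⟧)`, `F` additive and triangulated, `F (N⟦i⟧)` may be kept as it is: for the shift stability
use `Hom(M⟦a⟧, N⟦i⟧) ≅ Hom(M, N⟦i-a⟧)` compatible with `F`); apply `bounded_induction` with
`Q M :=` the vanishing property of (c).
-/

namespace Pool.Agent.H63.CMP

open CategoryTheory Limits Pretriangulated DerivedCategory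

universe w v u w' v' u'

section FinalBij

variable {C : Type u} [Category.{v} C] [HasZeroObject C] [HasShift C ℤ] [Preadditive C]
  [∀ n : ℤ, (shiftFunctor C n).Additive] [Pretriangulated C]
  {D : Type u'} [Category.{v'} D] [HasZeroObject D] [HasShift D ℤ] [Preadditive D]
  [∀ n : ℤ, (shiftFunctor D n).Additive] [Pretriangulated D]
  (F : C ⥤ D) [F.CommShift ℤ] [F.IsTriangulated]

/-- `F` is bijective on `Hom(X, Y)` -/
def FinalBij (X Y : C) : Prop := Function.Bijective (fun f : X ⟶ Y => F.map f)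

omit [HasZeroObject C] [HasShift C ℤ] [Preadditive C]
  [∀ n : ℤ, (shiftFunctor C n).Additive] [Pretriangulated C] [HasZeroObject D] [HasShift D ℤ]
  [Preadditive D] [∀ n : ℤ, (shiftFunctor D n).Additive] [Pretriangulated D] [F.CommShift ℤ]
  [F.IsTriangulated] in
lemma finalBij_iso {X X' Y Y' : C} (e : X ≅ X') (e' : Y ≅ Y') (h : FinalBij F X Y) :
    FinalBij F X' Y' := by
  constructor
  · intro f g hfg
    have hfg' : F.map f = F.map g := hfg
    have h1 : e.hom ≫ f ≫ e'.inv = e.hom ≫ g ≫ e'.inv := h.1 (by simp [hfg'])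
    simpa using h1
  · intro g
    obtain ⟨f, hf⟩ := h.2 (F.map e.hom ≫ g ≫ F.map e'.inv)
    have hf' : F.map f = F.map e.hom ≫ g ≫ F.map e'.inv := hf
    refine ⟨e.inv ≫ f ≫ e'.hom, ?_⟩
    show F.map (e.inv ≫ f ≫ e'.hom) = g
    rw [F.map_comp, F.map_comp, hf']
    simp [← F.map_comp_assoc, ← F.map_comp]

omit [HasZeroObject C] [Preadditive C]
  [∀ n : ℤ, (shiftFunctor C n).Additive] [Pretriangulated C] [HasZeroObject D]
  [Preadditive D] [∀ n : ℤ, (shiftFunctor D n).Additive] [Pretriangulated D]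
  [F.IsTriangulated] in
lemma finalBij_shift {X Y : C} (a : ℤ) (h : FinalBij F X Y) :
    FinalBij F (X⟦a⟧) (Y⟦a⟧) := by
  constructor
  · intro f g hfg
    have hfg' : F.map f = F.map g := hfg
    obtain ⟨f', rfl⟩ := (shiftFunctor C a).map_surjective f
    obtain ⟨g', rfl⟩ := (shiftFunctor C a).map_surjective g
    have h1 : (F.map f')⟦a⟧' = (F.map g')⟦a⟧' := by
      have e1 := F.commShiftIso_hom_naturality f' a
      have e2 := F.commShiftIso_hom_naturality g' a
      rw [← cancel_epi ((F.commShiftIso a).hom.app X)]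
      exact e1.symm.trans ((congrArg (fun t => t ≫ (F.commShiftIso a).hom.app Y) hfg').trans e2)
    have h2 : F.map f' = F.map g' := (shiftFunctor D a).map_injective h1
    rw [h.1 h2]
  · intro g
    obtain ⟨g', hg'⟩ := (shiftFunctor D a).map_surjective
      ((F.commShiftIso a).inv.app X ≫ g ≫ (F.commShiftIso a).hom.app Y)
    obtain ⟨f, hf⟩ := h.2 g'
    have hf' : F.map f = g' := hf
    refine ⟨f⟦a⟧', ?_⟩
    show F.map (f⟦a⟧') = g
    have e1 := F.commShiftIso_hom_naturality f a
    rw [← cancel_mono ((F.commShiftIso a).hom.app Y)]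
    refine e1.trans ?_
    rw [hf', hg']
    simp

/-- bijectivity against all shifts of `N` -/
def FinalP (N : C) : ObjectProperty C := fun M => ∀ i : ℤ, FinalBij F M (N⟦i⟧)

omit [HasZeroObject C] [Preadditive C]
  [∀ n : ℤ, (shiftFunctor C n).Additive] [Pretriangulated C] [HasZeroObject D]
  [HasShift D ℤ] [F.CommShift ℤ] [Preadditive D] [∀ n : ℤ, (shiftFunctor D n).Additive]
  [Pretriangulated D] [F.IsTriangulated] in
lemma finalP_iso (N : C) : (FinalP F N).IsClosedUnderIsomorphisms where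
  of_iso e h i := finalBij_iso F e (Iso.refl _) (h i)

omit [HasZeroObject C] [Preadditive C]
  [∀ n : ℤ, (shiftFunctor C n).Additive] [Pretriangulated C] [HasZeroObject D]
  [Preadditive D] [∀ n : ℤ, (shiftFunctor D n).Additive]
  [Pretriangulated D] [F.IsTriangulated] in
lemma finalP_shift (N M : C) (h : FinalP F N M) (a : ℤ) : FinalP F N (M⟦a⟧) := by
  intro i
  exact finalBij_iso F (Iso.refl _)
    ((shiftFunctorAdd' C (i - a) a i (by ring)).app N).symm (finalBij_shift F a (h (i - a)))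

omit [HasZeroObject D] [HasShift D ℤ] [Preadditive D] [∀ n : ℤ, (shiftFunctor D n).Additive]
  [Pretriangulated D] in
lemma final_extend (T : Triangle C) (hT : T ∈ distTriang C) {Y : C} (f₁ : T.obj₁ ⟶ Y)
    (h : ∀ c : T.obj₃⟦(-1 : ℤ)⟧ ⟶ T.obj₁, c ≫ T.mor₁ = 0 → c ≫ f₁ = 0) :
    ∃ f₂ : T.obj₂ ⟶ Y, f₁ = T.mor₁ ≫ f₂ :=
  T.invRotate.yoneda_exact₂ (inv_rot_of_distTriang _ hT) f₁
    (h _ (comp_distTriang_mor_zero₁₂ _ (inv_rot_of_distTriang _ hT)))

lemma finalP_triangle (Y : C) (T : Triangle C) (hT : T ∈ distTriang C)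
    (h1 : FinalBij F T.obj₁ Y) (h3 : FinalBij F T.obj₃ Y)
    (h1' : FinalBij F (T.obj₁⟦(1 : ℤ)⟧) Y) (h3' : FinalBij F (T.obj₃⟦(-1 : ℤ)⟧) Y) :
    FinalBij F T.obj₂ Y := by
  have hFT := F.map_distinguished T hT
  have inj : ∀ {X : C} (f : X ⟶ Y), FinalBij F X Y → F.map f = 0 → f = 0 := by
    intro X f hX hf
    apply hX.1
    show F.map f = F.map 0
    rw [hf, F.map_zero]
  constructor
  · intro f f' hff
    have hff' : F.map f = F.map f' := hff
    rw [← sub_eq_zero]
    set φ := f - f' with hφ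
    have hφ0 : F.map φ = 0 := by rw [hφ, F.map_sub, hff', sub_self]
    have e1 : T.mor₁ ≫ φ = 0 := inj _ h1 (by rw [F.map_comp, hφ0, comp_zero])
    obtain ⟨g, hg⟩ := T.yoneda_exact₂ hT φ e1
    have e2 : (F.mapTriangle.obj T).mor₂ ≫ F.map g = 0 := by
      show F.map T.mor₂ ≫ F.map g = 0
      rw [← F.map_comp, ← hg, hφ0]
    obtain ⟨k, hk⟩ := (F.mapTriangle.obj T).yoneda_exact₃ hFT (F.map g) e2
    obtain ⟨l, hl⟩ := h1'.2 ((F.commShiftIso (1 : ℤ)).hom.app T.obj₁ ≫ k)
    have hl' : F.map l = (F.commShiftIso (1 : ℤ)).hom.app T.obj₁ ≫ k := hl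
    have e3 : g = T.mor₃ ≫ l := by
      rw [← sub_eq_zero]
      apply inj _ h3
      rw [F.map_sub, F.map_comp, hl', hk]
      show (F.map T.mor₃ ≫ (F.commShiftIso (1 : ℤ)).hom.app T.obj₁) ≫ k - _ = 0
      rw [Category.assoc, sub_self]
    rw [hg, e3, ← Category.assoc, comp_distTriang_mor_zero₂₃ _ hT, zero_comp]
  · intro g
    obtain ⟨f₁, hf₁⟩ := h1.2 (F.map T.mor₁ ≫ g)
    have hf₁' : F.map f₁ = F.map T.mor₁ ≫ g := hf₁
    obtain ⟨f₂, hf₂'⟩ := final_extend T hT f₁ (fun c hc => by
      apply inj _ h3'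
      rw [F.map_comp, hf₁', ← Category.assoc, ← F.map_comp, hc, F.map_zero, zero_comp])
    have e3 : (F.mapTriangle.obj T).mor₁ ≫ (g - F.map f₂) = 0 := by
      show F.map T.mor₁ ≫ (g - F.map f₂) = 0
      rw [Preadditive.comp_sub, ← hf₁', ← F.map_comp, ← hf₂', sub_self]
    obtain ⟨g₃, hg₃⟩ := (F.mapTriangle.obj T).yoneda_exact₂ hFT (g - F.map f₂) e3
    obtain ⟨f₃, hf₃⟩ := h3.2 g₃
    have hf₃' : F.map f₃ = g₃ := hf₃
    refine ⟨f₂ + T.mor₂ ≫ f₃, ?_⟩
    show F.map (f₂ + T.mor₂ ≫ f₃) = g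
    rw [F.map_add, F.map_comp, hf₃']
    have hg₃' : g - F.map f₂ = F.map T.mor₂ ≫ g₃ := hg₃
    rw [← hg₃']
    exact add_sub_cancel _ _

lemma finalP_triangulated (N : C) : (FinalP F N).IsTriangulated := by
  have := finalP_iso F N
  have h1 : (FinalP F N).ContainsZero := by
    refine ⟨⟨_, isZero_zero C, fun i => ⟨fun f g _ => (isZero_zero C).eq_of_src _ _, fun g => ?_⟩⟩⟩
    exact ⟨0, (F.map_isZero (isZero_zero C)).eq_of_src _ _⟩
  have h2 : (FinalP F N).IsStableUnderShift ℤ :=
    ⟨fun a => ⟨fun M hM => finalP_shift F N M hM a⟩⟩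
  have h3 : (FinalP F N).IsTriangulatedClosed₂ := by
    apply ObjectProperty.IsTriangulatedClosed₂.mk'
    intro T hT h1 h3 i
    exact finalP_triangle F _ T hT (h1 i) (h3 i) (finalP_shift F N _ h1 1 i)
      (finalP_shift F N _ h3 (-1) i)
  exact { }

end FinalBij

variable {U : Type u} [Category.{v} U] [Abelian U] [HasDerivedCategory.{w} U]
  {V : Type u'} [Category.{v'} V] [Abelian V] [HasDerivedCategory.{w'} V]
  (L : U ⥤ V) [L.Additive] [PreservesFiniteLimits L] [PreservesFiniteColimits L]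
  {W : ObjectProperty U} [W.IsSerreClass] [L.IsLocalization W.isoModSerre]

theorem final_good_single (τ : Tails W) (N : U) : Good L W ((singleFunctor U 0).obj N) := by
  have key : ∀ n : ℕ, H1 L W (((singleFunctor U 0).obj N)⟦(n : ℤ)⟧) ∧
      H2 L W (((singleFunctor U 0).obj N)⟦(n : ℤ)⟧) := by
    intro n
    induction n with
    | zero => exact base L τ N ((0 : ℕ) : ℤ) (by simp)
    | succ n ih =>
      have e : ((n + 1 : ℕ) : ℤ) - 1 = n := by push_cast; ring
      have h1 : H1 L W (((singleFunctor U 0).obj N)⟦((n + 1 : ℕ) : ℤ) - 1⟧) := by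
        rw [e]; exact ih.1
      have h2 : H2 L W (((singleFunctor U 0).obj N)⟦((n + 1 : ℕ) : ℤ) - 1⟧) := by
        rw [e]; exact ih.2
      exact ⟨step_H1 L τ N _ (by positivity) h1 h2, step_H2 L τ N _ (by positivity) h1 h2⟩
  intro i
  rcases le_or_gt i 0 with h | h
  · exact base L τ N i h
  · obtain ⟨n, rfl⟩ := Int.eq_ofNat_of_zero_le h.le
    exact key n

theorem good_bounded (τ : Tails W) (N : DerivedCategory U) (hN : TStructure.t.bounded N) :
    Good L W N :=
  bounded_induction (Good L W) (fun _ => True) (fun _ _ => trivial) (fun _ _ => trivial)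
    (fun M _ => final_good_single L τ M) N hN (fun _ => trivial)

omit [Abelian V] [HasDerivedCategory.{w} U] [HasDerivedCategory.{w'} V] [PreservesFiniteLimits L]
  [PreservesFiniteColimits L] [L.Additive] in
lemma final_isIso (τ : Tails W) (k : ℕ) (M : U) : IsIso (L.map ((τ.i k).app M)) :=
  Localization.inverts L W.isoModSerre _ (τ.dense k M).2

lemma final_isIso' (τ : Tails W) (k : ℕ) (M : U) :
    IsIso (L.mapDerivedCategory.map ((singleFunctor U 0).map ((τ.i k).app M))) := by
  have h1 := final_isIso L τ k M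
  have h2 : IsIso ((L ⋙ singleFunctor V 0).map ((τ.i k).app M)) := by
    rw [Functor.comp_map]; infer_instance
  exact (NatIso.isIso_map_iff (L.mapDerivedCategorySingleFunctor 0) ((τ.i k).app M)).mpr h2

/-- the exact sequence `0 ⟶ t k M ⟶ M ⟶ coker ⟶ 0` -/
noncomputable def finalSC (τ : Tails W) (k : ℕ) (M : U) : ShortComplex U :=
  ShortComplex.mk ((τ.i k).app M) (cokernel.π ((τ.i k).app M)) (cokernel.condition _)

omit [HasDerivedCategory.{w} U] in
lemma finalSC_exact (τ : Tails W) (k : ℕ) (M : U) : (finalSC τ k M).ShortExact := by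
  have h1 : Mono (finalSC τ k M).f := (τ.dense k M).1
  have h2 : Epi (finalSC τ k M).g := by unfold finalSC; infer_instance
  exact { exact := ShortComplex.exact_cokernel _ }

theorem cmp_module (τ : Tails W) (N : DerivedCategory U) (hN : TStructure.t.bounded N) (M : U)
    (h : ∀ (k : ℕ) (i : ℤ)
      (f : (singleFunctor U 0).obj (cokernel ((τ.i k).app M)) ⟶ N⟦i⟧), f = 0) (i : ℤ) :
    Function.Bijective (fun f : (singleFunctor U 0).obj M ⟶ N⟦i⟧ =>
      L.mapDerivedCategory.map f) := by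
  obtain ⟨hH1, hH2⟩ := good_bounded L τ N hN i
  constructor
  · intro f f' hff
    have hff' : L.mapDerivedCategory.map f = L.mapDerivedCategory.map f' := hff
    rw [← sub_eq_zero]
    set φ := f - f' with hφ
    have hφ0 : L.mapDerivedCategory.map φ = 0 := by rw [hφ, Functor.map_sub, hff', sub_self]
    obtain ⟨M', s, hs, hsφ⟩ := hH1 M φ hφ0
    obtain ⟨k, u, hu⟩ := refine_tail τ hs
    have hT := (finalSC_exact τ k M).singleTriangle_distinguished
    have e1 : (singleFunctor U 0).map ((τ.i k).app M) ≫ φ = 0 := by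
      rw [← hu, Functor.map_comp, Category.assoc, hsφ, comp_zero]
    obtain ⟨g, hg⟩ := (finalSC_exact τ k M).singleTriangle.yoneda_exact₂ hT φ e1
    have hg0 : g = 0 := h k i g
    rw [hg, hg0]
    exact comp_zero
  · intro g
    obtain ⟨M', s, f, hs, hf⟩ := hH2 M g
    obtain ⟨k, u, hu⟩ := refine_tail τ hs
    have hT := (finalSC_exact τ k M).singleTriangle_distinguished
    let ι : (τ.t k).obj M ⟶ M := (τ.i k).app M
    have hι : u ≫ s = ι := hu
    have ext : ∃ f' : (singleFunctor U 0).obj M ⟶ N⟦i⟧,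
        (singleFunctor U 0).map u ≫ f = (singleFunctor U 0).map ι ≫ f' :=
      final_extend (C := DerivedCategory U) (finalSC_exact τ k M).singleTriangle hT
      (Y := N⟦i⟧) ((singleFunctor U 0).map u ≫ f) (by
        intro c _
        have key : ∀ φ : ((finalSC_exact τ k M).singleTriangle.obj₃)⟦(-1 : ℤ)⟧ ⟶ N⟦i⟧, φ = 0 := by
          intro φ
          have e1 : (shiftEquiv (DerivedCategory U) (1 : ℤ)).counitIso.inv.app
              (finalSC_exact τ k M).singleTriangle.obj₃ ≫ φ⟦(1 : ℤ)⟧' ≫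
              (shiftFunctorAdd' (DerivedCategory U) i 1 (i + 1) rfl).inv.app N = 0 :=
            h k (i + 1) _
          have e2 : φ⟦(1 : ℤ)⟧' = 0 := by
            have e3 := (cancel_epi _).mp (e1.trans comp_zero.symm)
            exact (cancel_mono _).mp (e3.trans zero_comp.symm)
          apply (shiftFunctor (DerivedCategory U) (1 : ℤ)).map_injective
          rw [e2, Functor.map_zero]
        exact key _)
    obtain ⟨f', hf'⟩ := ext
    have hiso : IsIso (L.mapDerivedCategory.map ((singleFunctor U 0).map ι)) := final_isIso' L τ k M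
    refine ⟨f', ?_⟩
    show L.mapDerivedCategory.map f' = g
    rw [← cancel_epi (L.mapDerivedCategory.map ((singleFunctor U 0).map ι)),
      ← Functor.map_comp, ← hf', Functor.map_comp, hf, ← hι, Functor.map_comp, Functor.map_comp,
      Category.assoc]

/-- The comparison theorem. -/
theorem cmp (τ : Tails W) (M N : DerivedCategory U) (hM : TStructure.t.bounded M)
    (hN : TStructure.t.bounded N)
    (h : ∀ (j : ℤ) (k : ℕ) (i : ℤ) (f : (singleFunctor U 0).obj
        (cokernel ((τ.i k).app ((homologyFunctor U j).obj M))) ⟶ N⟦i⟧), f = 0) :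
    Function.Bijective (fun f : M ⟶ N => L.mapDerivedCategory.map f) := by
  have htri := finalP_triangulated L.mapDerivedCategory N
  have hiso := finalP_iso L.mapDerivedCategory N
  have key : FinalP L.mapDerivedCategory N M := by
    apply bounded_induction (FinalP L.mapDerivedCategory N)
      (fun A => ∀ (k : ℕ) (i : ℤ) (f : (singleFunctor U 0).obj
        (cokernel ((τ.i k).app A)) ⟶ N⟦i⟧), f = 0) _ _ _ M hM
      (fun j k i f => h j k i f)
    · intro A B e hA k i f
      let e' : cokernel ((τ.i k).app A) ≅ cokernel ((τ.i k).app B) :=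
        cokernel.mapIso _ _ ((τ.t k).mapIso e) e (by simp)
      have h1 := hA k i (((singleFunctor U 0).mapIso e').hom ≫ f)
      exact (cancel_epi _).mp (h1.trans comp_zero.symm)
    · intro A hA k i f
      have h1 : IsZero (cokernel ((τ.i k).app A)) := by
        rw [IsZero.iff_id_eq_zero, ← cancel_epi (cokernel.π ((τ.i k).app A))]
        exact hA.eq_of_src _ _
      exact ((singleFunctor U 0).map_isZero h1).eq_of_src _ _
    · intro A hA i
      exact cmp_module L τ N hN A hA i
  exact finalBij_iso L.mapDerivedCategory (Iso.refl M)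
    ((shiftFunctorZero (DerivedCategory U) ℤ).app N) (key 0)

end Pool.Agent.H63.CMP
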