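import Pool.Agent.H63.CMP.Ser

/-!
# CMP-3 Base ((H1) and (H2) for `N[i]`, `N : U`, `i ≤ 0`)

`F = L.mapDerivedCategory`, `F (single M) ≅ single (L M)` naturally
(`L.mapDerivedCategorySingleFunctor 0`), `F (X⟦i⟧) ≅ (F X)⟦i⟧` (`F.commShiftIso i`).
* `i < 0`: `Hom(single M, (single N)⟦i⟧) = 0` in both derived categories (`single M` is `≤ 0`,
`(single N)⟦i⟧` is `≥ -i > 0`; `TStructure.t.zero`), so H1 is trivial (`s = 𝟙`), and in H2 both
sides are zero: `s = 𝟙`, `f = 0`; `g = 0` after the isomorphisms.
* `i = 0`: `(single N)⟦0⟧ ≅ single N`; `single` is full and faithful for `U` and for `V`. H1: `f`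
comes from `f₀ : M ⟶ N` with `L.map f₀ = 0` (`F.map (single.map f₀)` is conjugate to
`single.map (L.map f₀)`), use `zero_hom`. H2: `g` comes from `g₀ : L M ⟶ L N`, use `lift_hom`.
-/

namespace Pool.Agent.H63.CMP

open CategoryTheory Limits Pretriangulated DerivedCategory

universe w v u w' v' u'

variable {U : Type u} [Category.{v} U] [Abelian U] [HasDerivedCategory.{w} U]
  {V : Type u'} [Category.{v'} V] [Abelian V] [HasDerivedCategory.{w'} V]
  (L : U ⥤ V) [L.Additive] [PreservesFiniteLimits L] [PreservesFiniteColimits L]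
  {W : ObjectProperty U} [W.IsSerreClass] [L.IsLocalization W.isoModSerre]

omit [L.IsLocalization W.isoModSerre] in
theorem Base_H1_iso {N N' : DerivedCategory U} (e : N ≅ N') (h : H1 L W N) : H1 L W N' := by
  intro M f hf
  obtain ⟨M', s, hs, h1⟩ := h M (f ≫ e.inv) (by rw [Functor.map_comp, hf, zero_comp])
  refine ⟨M', s, hs, ?_⟩
  rw [← Category.assoc] at h1
  rw [← cancel_mono e.inv, h1, zero_comp]

omit [L.IsLocalization W.isoModSerre] in
theorem Base_H2_iso {N N' : DerivedCategory U} (e : N ≅ N') (h : H2 L W N) : H2 L W N' := by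
  intro M g
  obtain ⟨M', s, f, hs, h1⟩ := h M (g ≫ L.mapDerivedCategory.map e.inv)
  refine ⟨M', s, f ≫ e.hom, hs, ?_⟩
  rw [Functor.map_comp, h1, Category.assoc, Category.assoc, ← Functor.map_comp, e.inv_hom_id,
    CategoryTheory.Functor.map_id, Category.comp_id]

omit [L.Additive] [PreservesFiniteLimits L] [PreservesFiniteColimits L]
    [L.IsLocalization W.isoModSerre] in
theorem Base_dense_id (W : ObjectProperty U) [W.IsSerreClass] (M : U) : Dense W (𝟙 M) :=
  ⟨inferInstance, W.isoModSerre.id_mem M⟩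

theorem Base_neg (N : U) (i : ℤ) (hi : i < 0) :
    H1 L W (((singleFunctor U 0).obj N)⟦i⟧) ∧ H2 L W (((singleFunctor U 0).obj N)⟦i⟧) := by
  constructor
  · intro M f hf
    refine ⟨M, 𝟙 M, Base_dense_id W M, ?_⟩
    have h1 : TStructure.t.IsGE (((singleFunctor U 0).obj N)⟦i⟧) (-i) :=
      TStructure.t.isGE_shift _ 0 i (-i) (by omega)
    have h2 : f = 0 := TStructure.t.zero f 0 (-i) (by omega)
    rw [h2, comp_zero]
  · intro M g
    refine ⟨M, 𝟙 M, 0, Base_dense_id W M, ?_⟩
    have e1 : L.mapDerivedCategory.obj ((singleFunctor U 0).obj M) ≅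
        (singleFunctor V 0).obj (L.obj M) := (L.mapDerivedCategorySingleFunctor 0).app M
    have e2 : L.mapDerivedCategory.obj (((singleFunctor U 0).obj N)⟦i⟧) ≅
        ((singleFunctor V 0).obj (L.obj N))⟦i⟧ :=
      (L.mapDerivedCategory.commShiftIso i).app _ ≪≫
        (shiftFunctor _ i).mapIso ((L.mapDerivedCategorySingleFunctor 0).app N)
    have h3 : TStructure.t.IsLE (L.mapDerivedCategory.obj ((singleFunctor U 0).obj M)) 0 :=
      TStructure.t.isLE_of_iso e1.symm 0
    have h4 : TStructure.t.IsGE (((singleFunctor V 0).obj (L.obj N))⟦i⟧) (-i) :=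
      TStructure.t.isGE_shift _ 0 i (-i) (by omega)
    have h5 : TStructure.t.IsGE (L.mapDerivedCategory.obj (((singleFunctor U 0).obj N)⟦i⟧)) (-i) :=
      TStructure.t.isGE_of_iso e2.symm (-i)
    have h2 : g = 0 := TStructure.t.zero g 0 (-i) (by omega)
    rw [h2, comp_zero, Functor.map_zero]

theorem Base_zero (τ : Tails W) (N : U) :
    H1 L W ((singleFunctor U 0).obj N) ∧ H2 L W ((singleFunctor U 0).obj N) := by
  constructor
  · intro M f hf
    obtain ⟨f₀, rfl⟩ := (singleFunctor U 0).map_surjective f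
    have h1 := (L.mapDerivedCategorySingleFunctor 0).hom.naturality f₀
    have h2 : L.map f₀ = 0 := by
      apply (singleFunctor V 0).map_injective
      rw [Functor.map_zero]
      have h3 : (singleFunctor V 0).map (L.map f₀) =
          (L.mapDerivedCategorySingleFunctor 0).inv.app M ≫
            L.mapDerivedCategory.map ((singleFunctor U 0).map f₀) ≫
              (L.mapDerivedCategorySingleFunctor 0).hom.app N := by
        have h4 := NatIso.naturality_1 (L.mapDerivedCategorySingleFunctor 0) f₀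
        exact h4.symm
      rw [h3, hf, zero_comp, comp_zero]
    obtain ⟨M', s, hs, h5⟩ := zero_hom (W := W) L f₀ h2
    refine ⟨M', s, hs, ?_⟩
    rw [← Functor.map_comp, h5, Functor.map_zero]
  · intro M g
    obtain ⟨g₀, hg₀⟩ := (singleFunctor V 0).map_surjective
      ((L.mapDerivedCategorySingleFunctor 0).inv.app M ≫ g ≫
        (L.mapDerivedCategorySingleFunctor 0).hom.app N)
    obtain ⟨M', s, f, hs, h1⟩ := lift_hom L τ g₀
    refine ⟨M', s, (singleFunctor U 0).map f, hs, ?_⟩
    have h2 : L.mapDerivedCategory.map ((singleFunctor U 0).map f) =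
        (L.mapDerivedCategorySingleFunctor 0).hom.app M' ≫
          (singleFunctor V 0).map (L.map f) ≫
            (L.mapDerivedCategorySingleFunctor 0).inv.app N :=
      (NatIso.naturality_2 (L.mapDerivedCategorySingleFunctor 0) f).symm
    have h3 : L.mapDerivedCategory.map ((singleFunctor U 0).map s) =
        (L.mapDerivedCategorySingleFunctor 0).hom.app M' ≫
          (singleFunctor V 0).map (L.map s) ≫
            (L.mapDerivedCategorySingleFunctor 0).inv.app M :=
      (NatIso.naturality_2 (L.mapDerivedCategorySingleFunctor 0) s).symm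
    rw [h2, h3, h1, Functor.map_comp, hg₀]
    simp only [Category.assoc]
    rw [Iso.hom_inv_id_app]
    erw [Category.comp_id]

theorem base (τ : Tails W) (N : U) (i : ℤ) (hi : i ≤ 0) :
    H1 L W (((singleFunctor U 0).obj N)⟦i⟧) ∧ H2 L W (((singleFunctor U 0).obj N)⟦i⟧) := by
  rcases lt_or_eq_of_le hi with h | rfl
  · exact Base_neg L N i h
  · have h := Base_zero L τ N
    exact ⟨Base_H1_iso L ((shiftFunctorZero _ ℤ).symm.app _) h.1,
      Base_H2_iso L ((shiftFunctorZero _ ℤ).symm.app _) h.2⟩

end Pool.Agent.H63.CMP
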