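import Mathlib

/-!
# MP_7692e7_ag, block CMP: comparison `D^b(U) → D^b(U/W)` for a Serre class with exact tails

`U` abelian, `W` a Serre class of `U`, `L : U ⥤ V` an exact functor to an abelian category which is
a localization functor for `W.isoModSerre`; `F := L.mapDerivedCategory`.
-/

namespace Pool.Agent.H63.CMP

open CategoryTheory Limits Pretriangulated DerivedCategory

universe w v u w' v' u'

section
variable {U : Type u} [Category.{v} U] [Abelian U]

/-- `s` is a monomorphism whose cokernel is in the Serre class `W`. -/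
def Dense (W : ObjectProperty U) [W.IsSerreClass] {M' M : U} (s : M' ⟶ M) : Prop :=
  Mono s ∧ W.isoModSerre s

theorem Dense.comp {W : ObjectProperty U} [W.IsSerreClass] {M'' M' M : U} {s' : M'' ⟶ M'}
    {s : M' ⟶ M} (h' : Dense W s') (h : Dense W s) : Dense W (s' ≫ s) := by
  obtain ⟨h1, h2⟩ := h'
  obtain ⟨h3, h4⟩ := h
  exact ⟨mono_comp s' s, W.isoModSerre.comp_mem _ _ h2 h4⟩

/-- Exact subfunctors `t k` of the identity with quotient in `W`, such that every object of `W` is
killed by some `t k` (for graded modules: `t k M = M_{≥k}`). -/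
structure Tails (W : ObjectProperty U) [W.IsSerreClass] where
  t : ℕ → U ⥤ U
  additive : ∀ k, (t k).Additive
  lim : ∀ k, PreservesFiniteLimits (t k)
  colim : ∀ k, PreservesFiniteColimits (t k)
  i : ∀ k, t k ⟶ 𝟭 U
  dense : ∀ k M, Dense W ((i k).app M)
  zero : ∀ C, W C → ∃ k, IsZero ((t k).obj C)

end

section
variable {U : Type u} [Category.{v} U] [Abelian U] [HasDerivedCategory.{w} U]
  {V : Type u'} [Category.{v'} V] [Abelian V] [HasDerivedCategory.{w'} V]
  (L : U ⥤ V) [L.Additive] [PreservesFiniteLimits L] [PreservesFiniteColimits L]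
  (W : ObjectProperty U) [W.IsSerreClass]

/-- (H1) a map `f : M ⟶ N` with `F f = 0` vanishes on a dense subobject of `M`. -/
def H1 (N : DerivedCategory U) : Prop :=
  ∀ (M : U) (f : (singleFunctor U 0).obj M ⟶ N), L.mapDerivedCategory.map f = 0 →
    ∃ (M' : U) (s : M' ⟶ M), Dense W s ∧ (singleFunctor U 0).map s ≫ f = 0

/-- (H2) a map `g : F M ⟶ F N` comes, on a dense subobject of `M`, from a map to `N`. -/
def H2 (N : DerivedCategory U) : Prop :=
  ∀ (M : U) (g : L.mapDerivedCategory.obj ((singleFunctor U 0).obj M) ⟶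
      L.mapDerivedCategory.obj N),
    ∃ (M' : U) (s : M' ⟶ M) (f : (singleFunctor U 0).obj M' ⟶ N), Dense W s ∧
      L.mapDerivedCategory.map f =
        L.mapDerivedCategory.map ((singleFunctor U 0).map s) ≫ g

/-- (H1) and (H2) for all shifts. -/
def Good : ObjectProperty (DerivedCategory U) :=
  fun N => ∀ i : ℤ, H1 L W (N⟦i⟧) ∧ H2 L W (N⟦i⟧)

end

end Pool.Agent.H63.CMP
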