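import Pool.Agent.H63.CMP.Defs

/-!
# CMP-2 Ser (lemmas on Serre localisation with exact tails)

(a) `refine_tail`: for dense `s : M' ⟶ M` there are `k`, `u : (t k).obj M ⟶ M'` with
`u ≫ s = (i k).app M`. Proof: `C := cokernel s` is in `W`, take `k` with `(t k).obj C = 0`; `t k` is
exact, so `(t k).map s` is a monomorphism with zero cokernel, an isomorphism;
`u := inv ((t k).map s) ≫ (i k).app M'`, naturality of `i k`.
(b) `dense_of_iso`: for `s : M' ⟶ M` in `W.isoModSerre` there is `u : M'' ⟶ M'` with `u ≫ s` dense.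
Proof: the kernel `C` of `s` is in `W`, take `k` with `(t k).obj C = 0`, `u := (i k).app M'`;
`(t k).map s` is a monomorphism (its kernel is `(t k).obj C = 0`), and
`(i k).app M' ≫ s = (t k).map s ≫ (i k).app M` is a monomorphism; it is in `isoModSerre` as
`(i k).app M'` and `s` are.
(c) `lift_hom`: every `g : L M ⟶ L N` is of the form: there are a dense `s : M' ⟶ M`, `f : M' ⟶ N`
with `L.map f = L.map s ≫ g`. Right fraction (`Localization.exists_rightFraction L W.isoModSerre`)
and (b).
(d) `zero_hom`: `f : M ⟶ N` with `L.map f = 0` has a dense `s : M' ⟶ M` with `s ≫ f = 0`: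
`s = kernel.ι f`; the image of `f` is in `W`
(`ObjectProperty.SerreClassLocalization.map_eq_zero_iff`), and the cokernel of `kernel.ι f` is the
coimage `≅` image.
(e) `lift_epi`: for every epimorphism `q : Y ⟶ L M` there are `Y₁ : U`, `q₀ : Y₁ ⟶ M`,
`y : L Y₁ ⟶ Y` with `L.map q₀ = y ≫ q` and `L.map q₀` an epimorphism. Proof: `Y ≅ L Y₀` (`L` is
essentially surjective, `Localization.essSurj`), `L Y₀ ⟶ L M` is a right fraction
`inv (L s) ≫ L q₀` with `s : Y₁ ⟶ Y₀`.
(f) `dense_image`: if `L.map q₀` is an epimorphism then the monomorphism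
`Limits.image.ι q₀` (or `Abelian.image.ι`) is dense: cokernel of `q₀` is in `W`
(`SerreClassLocalization.epi_map_iff`).
(g) `isIso_of_dense`: `L.map s` is an isomorphism for dense `s` (`Localization.inverts`).
-/

namespace Pool.Agent.H63.CMP

open CategoryTheory Limits

universe v u v' u'

variable {U : Type u} [Category.{v} U] [Abelian U] {W : ObjectProperty U} [W.IsSerreClass]

theorem refine_tail (τ : Tails W) {M' M : U} {s : M' ⟶ M} (hs : Dense W s) :
    ∃ (k : ℕ) (u : (τ.t k).obj M ⟶ M'), u ≫ s = (τ.i k).app M := by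
  obtain ⟨hm, hiso⟩ := hs
  have hC : W (cokernel s) := hiso.2
  obtain ⟨k, hk⟩ := τ.zero _ hC
  have := τ.additive k
  have := τ.lim k
  have := τ.colim k
  have : Mono ((τ.t k).map s) := inferInstance
  have : Epi ((τ.t k).map s) := by
    have hz : IsZero (cokernel ((τ.t k).map s)) :=
      hk.of_iso (PreservesCokernel.iso (τ.t k) s).symm
    exact Abelian.epi_of_cokernel_π_eq_zero _ (hz.eq_of_tgt _ _)
  have : IsIso ((τ.t k).map s) := isIso_of_mono_of_epi _
  refine ⟨k, inv ((τ.t k).map s) ≫ (τ.i k).app M', ?_⟩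
  have := (τ.i k).naturality s
  simp only [Functor.id_map, Functor.id_obj] at this
  rw [Category.assoc, ← this, IsIso.inv_hom_id_assoc]

theorem dense_of_iso (τ : Tails W) {M' M : U} {s : M' ⟶ M} (hs : W.isoModSerre s) :
    ∃ (M'' : U) (u : M'' ⟶ M'), Dense W (u ≫ s) := by
  have hK : W (kernel s) := hs.1
  obtain ⟨k, hk⟩ := τ.zero _ hK
  have := τ.additive k
  have := τ.lim k
  have := τ.colim k
  refine ⟨_, (τ.i k).app M', ?_, ?_⟩
  · have : Mono ((τ.t k).map s) := by
      have hz : IsZero (kernel ((τ.t k).map s)) :=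
        hk.of_iso (PreservesKernel.iso (τ.t k) s).symm
      exact Abelian.mono_of_kernel_ι_eq_zero _ (hz.eq_of_src _ _)
    have : Mono ((τ.i k).app M) := (τ.dense k M).1
    have := (τ.i k).naturality s
    simp only [Functor.id_map, Functor.id_obj] at this
    rw [← this]
    exact mono_comp _ _
  · exact W.isoModSerre.comp_mem _ _ (τ.dense k M').2 hs

variable {V : Type u'} [Category.{v'} V] [Abelian V] (L : U ⥤ V) [L.Additive]
  [PreservesFiniteLimits L] [PreservesFiniteColimits L] [L.IsLocalization W.isoModSerre]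

theorem lift_hom (τ : Tails W) {M N : U} (g : L.obj M ⟶ L.obj N) :
    ∃ (M' : U) (s : M' ⟶ M) (f : M' ⟶ N), Dense W s ∧ L.map f = L.map s ≫ g := by
  obtain ⟨φ, hφ⟩ := Localization.exists_rightFraction L W.isoModSerre g
  obtain ⟨M'', u, hu⟩ := dense_of_iso τ φ.hs
  refine ⟨M'', u ≫ φ.s, u ≫ φ.f, hu, ?_⟩
  rw [hφ, L.map_comp, L.map_comp, Category.assoc]
  congr 1
  exact (MorphismProperty.RightFraction.map_s_comp_map _ _ _).symm

theorem zero_hom {M N : U} (f : M ⟶ N) (hf : L.map f = 0) :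
    ∃ (M' : U) (s : M' ⟶ M), Dense W s ∧ s ≫ f = 0 := by
  have h : W (Abelian.image f) := (ObjectProperty.SerreClassLocalization.map_eq_zero_iff L W f).1 hf
  refine ⟨_, kernel.ι f, ⟨inferInstance, W.isoModSerre_of_mono _ ?_⟩, kernel.condition f⟩
  change W (cokernel (kernel.ι f))
  refine W.prop_of_iso ?_ h
  exact (Abelian.coimageIsoImage f).symm

include W in
theorem lift_epi {M : U} {Y : V} (q : Y ⟶ L.obj M) [Epi q] :
    ∃ (Y₁ : U) (q₀ : Y₁ ⟶ M) (y : L.obj Y₁ ⟶ Y), L.map q₀ = y ≫ q ∧ Epi (L.map q₀) := by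
  have := Localization.essSurj L W.isoModSerre
  let e := L.objObjPreimageIso Y
  obtain ⟨φ, hφ⟩ := Localization.exists_rightFraction L W.isoModSerre (e.hom ≫ q)
  have h1 : L.map φ.f = (L.map φ.s ≫ e.hom) ≫ q := by
    rw [Category.assoc, hφ]
    exact (MorphismProperty.RightFraction.map_s_comp_map _ _ _).symm
  have : IsIso (L.map φ.s) := Localization.inverts L W.isoModSerre _ φ.hs
  refine ⟨_, φ.f, L.map φ.s ≫ e.hom, h1, ?_⟩
  rw [h1]
  exact epi_comp _ _

theorem dense_image {M Y₁ : U} (q₀ : Y₁ ⟶ M) (h : Epi (L.map q₀)) :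
    Dense W (Abelian.image.ι q₀) := by
  have h2 : W.epiModSerre q₀ := (ObjectProperty.SerreClassLocalization.epi_map_iff L W q₀).1 h
  exact ⟨inferInstance, ObjectProperty.epiModSerre.isoModSerre_image_ι h2⟩

end Pool.Agent.H63.CMP
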